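import Pool.Agent.Lib_helper40.MC.T8g.Q
import Pool.Agent.Lib_helper40.MC.T8g.T

/-!
# N = 8, generic: all checks
-/

set_option autoImplicit false
set_option maxRecDepth 100000

namespace Pool.Agent.MC8g

open Pool.Agent.KC72 Pool.Agent.MC

theorem c8g_0 : Num c8g c8g_t := by decide +kernel

theorem c8g_om : xm c8g.kb c8g.ko (c8g.m * c8g.N) c8g.Om = true := by decide +kernel

theorem c8g_b : cB c8g = true := by decide +kernel

theorem c8g_r0 : blk (cR c8g) c8g.rels 60 0 = true := by decide +kernel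

theorem c8g_r' : ∀ k < 1, blk (cR c8g) c8g.rels 60 k = true
  | 0, _ => c8g_r0
  | k + 1, h => absurd h (by omega)

theorem c8g_g : allI (fun c g => cG c8g.DG c8g_t.B c8g_t.MA c8g_t.P2 c8g_t.MB c g) c8g.G 0 = true := by decide +kernel

theorem c8g_g' : c8g.toCert.chk3' = true := by decide +kernel

theorem c8g_k1 : (c8g.cls.take c8g.m).map (prF c8g_t.p c8g.n c8g.r) = c8g_t.PR := by decide +kernel

theorem c8g_k2 : (c8g.cls.take c8g.m).map (pkw (Int.ofNat c8g_t.Z) (Int.ofNat (Nat.pow c8g_t.Z c8g.n)) c8g.r) = c8g_t.PM := by decide +kernel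

theorem c8g_k3 : c8g_t.P2.map (fun x => pmb (Int.ofNat c8g_t.B) x.1 x.2 (c8g.cls.take c8g.m)) = c8g_t.MB := by decide +kernel

theorem c8g_e : c8g.cls.all (fun e => bdE c8g_t.MA c8g.n e.1.2 && bdE c8g_t.MA c8g.n e.2.2) = true := by decide +kernel

theorem c8g_xq : c8g_t.XQ.all (fun X => X.all (xm c8g_t.a c8g_t.d c8g_t.S)) = true := by decide +kernel

theorem c8g_xt : c8g_t.XT.all (fun X => X.all (xm c8g_t.a' c8g_t.d' c8g_t.K)) = true := by decide +kernel

/-- all checks -/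
theorem c8g_ok : ROk c8g :=
  rOk_of (A := c8g_t) (l4 := 60) (n4 := 1) (lQ := 40) (nQ := 3) (lT := 40) (nT := 3) c8g_0 c8g_om c8g_b
    (by decide) (by decide +kernel) c8g_r' c8g_g c8g_g' ⟨c8g_k1, c8g_k2, c8g_k3⟩ c8g_e c8g_xq c8g_xt (by decide) (by decide +kernel) c8g_q'
    (by decide) (by decide +kernel) c8g_t'

end Pool.Agent.MC8g
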