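import Pool.Agent.Lib_helper40.MC.P2
import Pool.Agent.Lib_helper40.MC.T8g.Ok
import Pool.Agent.Lib_helper24.FAM.C8g

/-!
# The classes of the certificate `c8g` are those of the list `c8g_cls`
-/

set_option autoImplicit false
set_option maxRecDepth 100000

namespace Pool.Agent.MC8g

open Pool.Agent.MC

/-- positions -/
def ia : List ℕ := [22, 16, 15, 21, 23, 18, 41, 54, 49, 26, 39, 34, 10, 52, 38, 11, 27, 48, 19, 57, 20, 14, 17,
  9, 7, 6, 8, 35, 37, 36, 45, 53, 55, 40, 4, 24, 30, 1, 47, 13, 42, 51, 25, 12, 44, 31, 46, 0,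
  2, 3, 5, 32, 28, 29, 33, 43, 50, 56]

/-- positions -/
def ib : List ℕ := [47, 37, 48, 49, 34, 50, 25, 24, 26, 23, 12, 15, 43, 39, 21, 2, 1, 22, 5, 18, 20, 3, 0, 4, 35,
  42, 9, 16, 52, 53, 36, 45, 51, 54, 11, 27, 29, 28, 14, 10, 33, 6, 40, 55, 44, 30, 46, 38, 17,
  8, 56, 41, 13, 31, 7, 32, 57, 19]

/-- **the same classes** -/
theorem same : sameC c8g.cls N8C.c8g_cls = true :=
  sameC_of_pos (a := ia) (b := ib) (by decide +kernel) (by decide +kernel)

end Pool.Agent.MC8g
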