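import Pool.Agent.Lib_helper40.MC.T8g.Dat

/-!
# N = 8, generic: the coordinates
-/

set_option autoImplicit false
set_option maxRecDepth 100000

namespace Pool.Agent.MC8g

open Pool.Agent.KC72 Pool.Agent.MC

theorem c8g_q0 : blk (cQ c8g c8g_t) c8g.Q 40 0 = true := by decide +kernel

theorem c8g_q1 : blk (cQ c8g c8g_t) c8g.Q 40 1 = true := by decide +kernel

theorem c8g_q2 : blk (cQ c8g c8g_t) c8g.Q 40 2 = true := by decide +kernel

theorem c8g_q' : ∀ k < 3, blk (cQ c8g c8g_t) c8g.Q 40 k = true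
  | 0, _ => c8g_q0
  | 1, _ => c8g_q1
  | 2, _ => c8g_q2
  | k + 3, h => absurd h (by omega)

end Pool.Agent.MC8g
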